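import Pool.Agent.R474.AG.BadG

/-!
The number of positions outside of a union of few intervals with small quotient of tails, with an
arbitrary small density `δ` (the starting file `R474.AG.Bad` has `δ = 1 / 2`).
-/

set_option autoImplicit false

open Finset

namespace Pool.Agent.U363.SP

open Pool.Agent.H394R2.Ones Pool.Agent.H820R3.DG Pool.Agent.R474.AG

section
variable {b : ℕ} {y : ℝ}

open Classical in
theorem bad_cardE (hb : 2 ≤ b) (hy0 : 0 < y) (hy1 : y < 1) (halg : IsAlgebraic ℚ y)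
    (hirr : Irrational y) (e : ℕ) (c : ℝ) (hc0 : 0 ≤ c) (δ : ℝ) (hδ0 : 0 < δ) (hδ1 : δ ≤ 1) :
    ∃ C : ℝ, 0 ≤ C ∧ ∀ (n : ℕ) (ι : Type) [Fintype ι] (α β : ι → ℕ),
      (∀ m, m ≤ n → 1 ≤ rr (xx b y) (e + 1) m → ∃ f, α f ≤ m ∧ m ≤ β f) →
      (((range n).filter (fun m => (¬ ∃ f, α f ≤ m ∧ m ≤ β f) ∧
        TT b y (e + 2) m ≤ c * TT b y (e + 1) m)).card : ℝ) ≤
        C * (1 + Real.log ((n : ℝ) + 1)) * (Fintype.card ι + 1) + δ * n := by
  have hb1 : (1 : ℝ) < b := by exact_mod_cast (by omega : 1 < b)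
  have hb2 : (2 : ℝ) ≤ b := by exact_mod_cast hb
  have hb0 : (0 : ℝ) < b := by linarith
  have hlogb : 0 < Real.log b := Real.log_pos hb1
  obtain ⟨L0, hpos⟩ := bad_pos2 hb hy0 hy1 halg hirr e c hc0 (δ / 4) (by linarith) (by linarith)
  obtain ⟨L1, hgap⟩ := gap hb hy0 halg hirr (1 / 2) (by norm_num) (by norm_num)
  set A0 : ℝ := Real.log ((c + 1) * (3 ^ (e + 1) * (2 * b) ^ e)) with hA0
  have hA1 : 1 ≤ (c + 1) * (3 ^ (e + 1) * (2 * (b : ℝ)) ^ e) := by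
    have h1 : (1 : ℝ) ≤ 3 ^ (e + 1) := one_le_pow₀ (by norm_num)
    have h2 : (1 : ℝ) ≤ (2 * (b : ℝ)) ^ e := one_le_pow₀ (by linarith)
    have h3 : (1 : ℝ) ≤ 3 ^ (e + 1) * (2 * (b : ℝ)) ^ e := one_le_mul_of_one_le_of_one_le h1 h2
    exact one_le_mul_of_one_le_of_one_le (by linarith) h3
  have hA00 : 0 ≤ A0 := Real.log_nonneg hA1
  set C5 : ℝ := (A0 + e) / Real.log b + 3 + L0 with hC5
  have hC50 : 0 ≤ C5 := by positivity
  refine ⟨4 * C5 + L1 + 3, by positivity, fun n ι _ α β hcov => ?_⟩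
  have hℓ : 0 ≤ Real.log ((n : ℝ) + 1) := Real.log_nonneg (by
    have : (0 : ℝ) ≤ n := Nat.cast_nonneg _
    linarith)
  set ℓ := Real.log ((n : ℝ) + 1) with hℓdef
  have hn0 : (0 : ℝ) ≤ n := Nat.cast_nonneg _
  have hL1 : (0 : ℝ) ≤ L1 := Nat.cast_nonneg _
  set I : ℝ := (Fintype.card ι : ℝ) with hI
  have hI0 : 0 ≤ I := Nat.cast_nonneg _
  rcases Nat.lt_or_ge n L1 with hnL | hnL
  · have h1 : ((range n).filter (fun m => (¬ ∃ f, α f ≤ m ∧ m ≤ β f) ∧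
        TT b y (e + 2) m ≤ c * TT b y (e + 1) m)).card ≤ n := by
      simpa using card_filter_le (range n) (fun m => (¬ ∃ f, α f ≤ m ∧ m ≤ β f) ∧
        TT b y (e + 2) m ≤ c * TT b y (e + 1) m)
    have h2 : (((range n).filter (fun m => (¬ ∃ f, α f ≤ m ∧ m ≤ β f) ∧
        TT b y (e + 2) m ≤ c * TT b y (e + 1) m)).card : ℝ) ≤
        L1 := by exact_mod_cast (h1.trans hnL.le)
    have h3 : (L1 : ℝ) * 1 * 1 ≤ (4 * C5 + L1 + 3) * (1 + ℓ) * (I + 1) := by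
      gcongr
      · linarith
      · linarith
      · linarith
    have h4 : 0 ≤ δ * n := by positivity
    linarith
  -- the parameters
  set X : ℕ := 2 * n + 2 with hX
  set V : ℝ := c * (3 ^ (e + 1) * ((b : ℝ) * X) ^ e) with hV
  have hV0 : 0 ≤ V := by positivity
  have hX1 : (X : ℝ) = 2 * (n + 1) := by rw [hX]; push_cast; ring
  have hV1 : V + 1 ≤ (c + 1) * (3 ^ (e + 1) * (2 * (b : ℝ)) ^ e) * ((n : ℝ) + 1) ^ e := by
    have h1 : (c + 1) * (3 ^ (e + 1) * (2 * (b : ℝ)) ^ e) * ((n : ℝ) + 1) ^ e =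
        V + 3 ^ (e + 1) * ((b : ℝ) * X) ^ e := by
      rw [hV, hX1]
      have : ((b : ℝ) * (2 * (n + 1))) ^ e = (2 * (b : ℝ)) ^ e * ((n : ℝ) + 1) ^ e := by
        rw [← mul_pow]; congr 1; ring
      rw [this]; ring
    rw [h1]
    have h2 : (1 : ℝ) ≤ 3 ^ (e + 1) := one_le_pow₀ (by norm_num)
    have h3 : (1 : ℝ) ≤ ((b : ℝ) * X) ^ e := one_le_pow₀ (by rw [hX1]; nlinarith)
    have h4 : (1 : ℝ) ≤ 3 ^ (e + 1) * ((b : ℝ) * X) ^ e := one_le_mul_of_one_le_of_one_le h2 h3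
    linarith
  have hlogV : Real.log (V + 1) ≤ A0 + e * ℓ := by
    calc Real.log (V + 1) ≤
        Real.log ((c + 1) * (3 ^ (e + 1) * (2 * (b : ℝ)) ^ e) * ((n : ℝ) + 1) ^ e) :=
          Real.log_le_log (by linarith) hV1
      _ = A0 + e * ℓ := by
        rw [Real.log_mul (by linarith) (by positivity), Real.log_pow]
  set a' : ℕ := ⌊Real.log (V + 1) / Real.log b⌋₊ + 1 with ha'
  have hlV0 : 0 ≤ Real.log (V + 1) := Real.log_nonneg (by linarith)
  have ha'1 : V < (b : ℝ) ^ a' := by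
    have h1 : Real.log (V + 1) / Real.log b < a' := by
      rw [ha']; push_cast; exact Nat.lt_floor_add_one _
    rw [div_lt_iff₀ hlogb] at h1
    have h2 : Real.log (V + 1) < Real.log ((b : ℝ) ^ a') := by rw [Real.log_pow]; exact h1
    have h3 := (Real.log_lt_log_iff (by linarith) (by positivity)).mp h2
    linarith
  have ha'2 : (a' : ℝ) + 2 + L0 ≤ C5 * (1 + ℓ) := by
    have h1 : (a' : ℝ) ≤ Real.log (V + 1) / Real.log b + 1 := by
      rw [ha']; push_cast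
      have := Nat.floor_le (div_nonneg hlV0 hlogb.le)
      linarith
    have h2 : Real.log (V + 1) / Real.log b ≤ (A0 + e * ℓ) / Real.log b :=
      div_le_div_of_nonneg_right hlogV hlogb.le
    have h3 : (A0 + e * ℓ) / Real.log b ≤ (A0 + e) / Real.log b * (1 + ℓ) := by
      rw [div_mul_eq_mul_div]
      apply div_le_div_of_nonneg_right _ hlogb.le
      have : (0 : ℝ) ≤ e := Nat.cast_nonneg _
      nlinarith
    have h4 : (0 : ℝ) ≤ L0 := Nat.cast_nonneg _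
    have h5 : C5 * (1 + ℓ) = (A0 + e) / Real.log b * (1 + ℓ) + (3 + L0) * (1 + ℓ) := by
      rw [hC5]; ring
    have h6 : 3 + (L0 : ℝ) ≤ (3 + L0) * (1 + ℓ) := by nlinarith
    linarith
  -- the next element
  obtain ⟨k, hk1, hk2, hk3⟩ := hgap n hnL
  have hkE : 1 ≤ rr (xx b y) (e + 1) k := rr_supp_one e k hk3 (by omega)
  have hex : ∃ k, n ≤ k ∧ 1 ≤ rr (xx b y) (e + 1) k := ⟨k, hk1.le, hkE⟩
  set j' := Nat.find hex with hj'
  have hj'1 := Nat.find_spec hex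
  rw [← hj'] at hj'1
  have hj'k : j' ≤ k := Nat.find_min' hex ⟨hk1.le, hkE⟩
  have hj'R : (j' : ℝ) ≤ n + 1 + 1 / 2 * n := by
    have : (j' : ℝ) ≤ k := by exact_mod_cast hj'k
    linarith
  have hj'X : j' ≤ X := by
    have : (j' : ℝ) ≤ X := by rw [hX1]; linarith
    exact_mod_cast this
  have h1 := sparse (fun k => 1 ≤ rr (xx b y) (e + 1) k)
    (fun m => TT b y (e + 2) m ≤ c * TT b y (e + 1) m) α β n (a' + 2 + L0) X j' (δ / 4)
    (by linarith) (rr_zero_pos _) (fun m hm hPm => hcov m hm.le hPm) hj'1.1 hj'X hj'1.2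
    (fun k' hk'1 hk'2 hk'3 => Nat.find_min hex hk'2 ⟨hk'1, hk'3⟩) (by
      intro m j j'' h2 h3 h4 h5 _ h7 h8
      rcases hpos a' X ha'1 m j j'' h2 h3 h4 h5 (fun k hk1 hk2 => by
        have := h7 k hk1 hk2
        omega) h8 with h9 | h9
      · left; omega
      · right
        push_cast
        have : (0 : ℝ) ≤ L0 := Nat.cast_nonneg _
        linarith)
  have h2 : ((range n).filter (fun m => (¬ ∃ f, α f ≤ m ∧ m ≤ β f) ∧
        TT b y (e + 2) m ≤ c * TT b y (e + 1) m)).card ≤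
      ((range n).filter (fun m => 1 ≤ m ∧ (m < n ∧ (¬ ∃ f, α f ≤ m ∧ m ≤ β f) ∧
        TT b y (e + 2) m ≤ c * TT b y (e + 1) m))).card + 1 := by
    have h3 : (range n).filter (fun m => (¬ ∃ f, α f ≤ m ∧ m ≤ β f) ∧
        TT b y (e + 2) m ≤ c * TT b y (e + 1) m) ⊆
        (range n).filter (fun m => 1 ≤ m ∧ (m < n ∧ (¬ ∃ f, α f ≤ m ∧ m ≤ β f) ∧
        TT b y (e + 2) m ≤ c * TT b y (e + 1) m)) ∪
          range 1 := by
      intro m hm
      obtain ⟨hm1, hm2⟩ := mem_filter.mp hm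
      rw [mem_union]
      rcases Nat.lt_or_ge m 1 with h4 | h4
      · exact Or.inr (mem_range.mpr h4)
      · exact Or.inl (mem_filter.mpr ⟨hm1, h4, mem_range.1 hm1, hm2⟩)
    have h4 := (card_le_card h3).trans (card_union_le _ _)
    rwa [card_range] at h4
  have h2' : (((range n).filter (fun m => (¬ ∃ f, α f ≤ m ∧ m ≤ β f) ∧
        TT b y (e + 2) m ≤ c * TT b y (e + 1) m)).card : ℝ) ≤
      ((range n).filter (fun m => 1 ≤ m ∧ (m < n ∧ (¬ ∃ f, α f ≤ m ∧ m ≤ β f) ∧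
        TT b y (e + 2) m ≤ c * TT b y (e + 1) m))).card + 1 := by
    exact_mod_cast h2
  push_cast at h1
  have h4 : δ / 4 * j' ≤ δ * n + 1 := by nlinarith
  have ha0 : (0 : ℝ) ≤ a' + 2 + L0 := by positivity
  have h5 : 2 * ((a' : ℝ) + 2 + L0) * (2 * I + 1) ≤ 2 * (C5 * (1 + ℓ)) * (2 * I + 1) := by
    apply mul_le_mul_of_nonneg_right _ (by positivity)
    linarith
  have h7 : (L1 + 3) * 1 * 1 ≤ (L1 + 3) * (1 + ℓ) * (I + 1) := by
    gcongr
    · linarith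
    · linarith
  have h8 : (4 * C5 + L1 + 3) * (1 + ℓ) * (I + 1) =
      2 * (C5 * (1 + ℓ)) * (2 * I + 1) + 2 * (C5 * (1 + ℓ)) +
        (L1 + 3) * (1 + ℓ) * (I + 1) := by ring
  rw [h8]
  linarith

end

end Pool.Agent.U363.SP
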