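import Pool.Agent.U363.SP.Real

/-!
The number of sums of `D` places.
-/

set_option autoImplicit false

open Finset

namespace Pool.Agent.U363.SP

open Pool.Agent.H820R3.DG

open Classical in
/-- counting: if most `m` are closely below an element of `A`, then `A` is large -/
lemma count_near (A : ℕ → Prop) (n : ℕ) (R : ℝ) (hR : 0 ≤ R) :
    (n : ℝ) ≤ (((Icc 1 n).filter (fun m => ¬ ∃ j : ℕ, m ≤ j ∧ (j : ℝ) ≤ m + R ∧ A j)).card : ℝ) +
      (((Icc 1 n).filter A).card + 1) * (R + 1) := by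
  set r : ℕ := ⌊R⌋₊ with hr
  have hrR : (r : ℝ) ≤ R := Nat.floor_le hR
  have hsub : Icc 1 n ⊆
      (Icc 1 n).filter (fun m => ¬ ∃ j : ℕ, m ≤ j ∧ (j : ℝ) ≤ m + R ∧ A j) ∪
      (((Icc 1 n).filter A).biUnion (fun j => Icc (j - r) j) ∪ Icc (n - r) n) := by
    intro m hm
    obtain ⟨hm1, hm2⟩ := mem_Icc.1 hm
    rw [mem_union, mem_union]
    by_cases h : ∃ j : ℕ, m ≤ j ∧ (j : ℝ) ≤ m + R ∧ A j
    · right
      obtain ⟨j, hj1, hj2, hj3⟩ := h
      have h1 : j - m ≤ r := by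
        apply Nat.le_floor
        rw [Nat.cast_sub hj1]
        linarith
      rcases Nat.lt_or_ge n j with h2 | h2
      · exact Or.inr (mem_Icc.2 ⟨by omega, hm2⟩)
      · exact Or.inl (mem_biUnion.2 ⟨j, mem_filter.2 ⟨mem_Icc.2 ⟨by omega, h2⟩, hj3⟩,
          mem_Icc.2 ⟨by omega, hj1⟩⟩)
    · exact Or.inl (mem_filter.2 ⟨hm, h⟩)
  have h1 := (card_le_card hsub).trans ((card_union_le _ _).trans
    (Nat.add_le_add_left (card_union_le _ _) _))
  rw [Nat.card_Icc, Nat.add_sub_cancel] at h1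
  have h2 : (((Icc 1 n).filter A).biUnion (fun j => Icc (j - r) j)).card ≤
      ((Icc 1 n).filter A).card * (r + 1) := by
    refine card_biUnion_le.trans ?_
    refine (sum_le_card_nsmul _ _ (r + 1) fun j _ => ?_).trans_eq (by rw [smul_eq_mul])
    rw [Nat.card_Icc]
    omega
  have h3 : (Icc (n - r) n).card ≤ r + 1 := by
    rw [Nat.card_Icc]; omega
  have h4 : n ≤ ((Icc 1 n).filter (fun m => ¬ ∃ j : ℕ, m ≤ j ∧ (j : ℝ) ≤ m + R ∧ A j)).card +
      (((Icc 1 n).filter A).card + 1) * (r + 1) := by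
    have e : (((Icc 1 n).filter A).card + 1) * (r + 1) =
      ((Icc 1 n).filter A).card * (r + 1) + (r + 1) := by ring
    rw [e]
    omega
  have h5 : (n : ℝ) ≤ (((Icc 1 n).filter (fun m => ¬ ∃ j : ℕ, m ≤ j ∧
      (j : ℝ) ≤ m + R ∧ A j)).card : ℝ) + (((Icc 1 n).filter A).card + 1) * ((r : ℝ) + 1) := by
    exact_mod_cast h4
  have h6 : ((((Icc 1 n).filter A).card : ℝ) + 1) * ((r : ℝ) + 1) ≤
      (((Icc 1 n).filter A).card + 1) * (R + 1) :=
    mul_le_mul_of_nonneg_left (by linarith) (by positivity)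
  linarith

open Classical in
/-- the number of sums of `D` places, for the digits `0` and `b - 1` -/
theorem card_alg {b : ℕ} (hb : 2 ≤ b) {ξ : ℝ} (halg : IsAlgebraic ℚ ξ) (hirr : Irrational ξ) :
    ∃ C : ℝ, 0 < C ∧ ∃ n0 : ℕ, ∀ n : ℕ, n0 ≤ n → ∀ e : ℤ, (e = 0 ∨ e = b - 1) →
      (n : ℝ) ≤ C * (((Icc 1 n).filter (IsSum b ξ e (minpoly ℚ ξ).natDegree)).card : ℝ) *
        Real.log (2 + (others b ξ e n : ℝ) ^ (minpoly ℚ ξ).natDegree / n) := by
  obtain ⟨C, hC, n0, h⟩ := near_alg hb halg hirr (1 / 4) (by norm_num) (by norm_num)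
  set D := (minpoly ℚ ξ).natDegree with hD
  have hl2 : 0 < Real.log 2 := Real.log_pos (by norm_num)
  -- there are sums of `D` places
  have hex : ∀ e : ℤ, (e = 0 ∨ e = b - 1) → ∃ j, 1 ≤ j ∧ IsSum b ξ e D j := by
    intro e he
    by_contra hcon
    push Not at hcon
    have h1 := h (max n0 1) (le_max_left _ _) e he
    have h2 : ((Icc 1 (max n0 1)).filter (fun m => ¬ ∃ j : ℕ, m ≤ j ∧
        (j : ℝ) ≤ m + C * Real.log (2 + (others b ξ e (max n0 1) : ℝ) ^ D / (max n0 1 : ℕ)) ∧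
        IsSum b ξ e D j)) = Icc 1 (max n0 1) := by
      refine filter_true_of_mem fun m hm => ?_
      rintro ⟨j, hj1, -, hj3⟩
      exact hcon j (by have := (mem_Icc.1 hm).1; omega) hj3
    rw [h2, Nat.card_Icc, Nat.add_sub_cancel] at h1
    have h3 : (1 : ℝ) ≤ (max n0 1 : ℕ) := by exact_mod_cast le_max_right n0 1
    linarith
  obtain ⟨j1, hj11, hj12⟩ := hex 0 (Or.inl rfl)
  obtain ⟨j2, hj21, hj22⟩ := hex (b - 1) (Or.inr rfl)
  refine ⟨8 / 3 * (C + 1 / Real.log 2), by positivity, max n0 (max j1 j2), fun n hn e he => ?_⟩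
  have hn1 : n0 ≤ n := (le_max_left _ _).trans hn
  have hn2 : j1 ≤ n := (le_max_left j1 j2).trans ((le_max_right n0 _).trans hn)
  have hn3 : j2 ≤ n := (le_max_right j1 j2).trans ((le_max_right n0 _).trans hn)
  set l := Real.log (2 + (others b ξ e n : ℝ) ^ D / n) with hl
  have hll : Real.log 2 ≤ l := Real.log_le_log (by norm_num) (by
    have : 0 ≤ (others b ξ e n : ℝ) ^ D / n := by positivity
    linarith)
  have hone : 1 ≤ 1 / Real.log 2 * l := by
    rw [div_mul_eq_mul_div, one_mul, le_div_iff₀ hl2]; linarith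
  have h1 := h n hn1 e he
  rw [← hl] at h1
  have h2 := count_near (IsSum b ξ e D) n (C * l) (by
    have : 0 ≤ l := by linarith
    positivity)
  set S : ℕ := ((Icc 1 n).filter (IsSum b ξ e D)).card with hS
  have hS1 : 1 ≤ S := by
    rw [hS, Nat.one_le_iff_ne_zero, ← Nat.pos_iff_ne_zero, card_pos]
    rcases he with rfl | rfl
    · exact ⟨j1, mem_filter.2 ⟨mem_Icc.2 ⟨hj11, hn2⟩, hj12⟩⟩
    · exact ⟨j2, mem_filter.2 ⟨mem_Icc.2 ⟨hj21, hn3⟩, hj22⟩⟩
  have hSR : (1 : ℝ) ≤ S := by exact_mod_cast hS1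
  have h3 : ((S : ℝ) + 1) * (C * l + 1) ≤ (2 * S) * ((C + 1 / Real.log 2) * l) := by
    have hCl : 0 ≤ C * l := mul_nonneg hC.le (by linarith)
    have h4 : C * l + 1 ≤ (C + 1 / Real.log 2) * l := by
      rw [add_mul]; linarith
    exact mul_le_mul (by linarith) h4 (by linarith) (by linarith)
  have h4 : 8 / 3 * (C + 1 / Real.log 2) * S * l =
      4 / 3 * ((2 * S) * ((C + 1 / Real.log 2) * l)) := by ring
  rw [h4]
  linarith

end Pool.Agent.U363.SP
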