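import Pool.Agent.U363.SP.Near

/-!
Almost all positions are near to the support: choice of the parameters.
-/

set_option autoImplicit false

open Finset

namespace Pool.Agent.U363.SP

open Pool.Agent.H394R2.Ones Pool.Agent.H820R3.DG Pool.Agent.R474.AG

/-- choice of the distance -/
lemma exists_M (B : ℝ) (hB : 0 ≤ B) (X : ℝ) (hX : 0 ≤ X) (b : ℕ) (hb : 2 ≤ b) :
    ∃ M : ℕ, B * X ≤ (b : ℝ) ^ M ∧ (M : ℝ) ≤
      ((Real.log (1 + B) / Real.log 2 + 2) / Real.log 2) * Real.log (2 + X) := by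
  have hl2 : 0 < Real.log 2 := Real.log_pos (by norm_num)
  set l := Real.log (2 + X) with hl
  have hll : Real.log 2 ≤ l := Real.log_le_log (by norm_num) (by linarith)
  have hlB : 0 ≤ Real.log (1 + B) := Real.log_nonneg (by linarith)
  set t := (Real.log (1 + B) + l) / Real.log 2 with ht
  have ht0 : 0 ≤ t := div_nonneg (by linarith) hl2.le
  refine ⟨⌈t⌉₊, ?_, ?_⟩
  · have h1 : t ≤ (⌈t⌉₊ : ℝ) := Nat.le_ceil t
    have h2 : Real.log (1 + B) + l ≤ (⌈t⌉₊ : ℝ) * Real.log 2 := by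
      rw [ht, div_le_iff₀ hl2] at h1
      exact h1
    have h3 : Real.log ((1 + B) * (2 + X)) ≤ Real.log ((2 : ℝ) ^ ⌈t⌉₊) := by
      rw [Real.log_pow, Real.log_mul (by positivity) (by positivity)]
      exact h2
    have h4 : (1 + B) * (2 + X) ≤ (2 : ℝ) ^ ⌈t⌉₊ :=
      (Real.log_le_log_iff (by positivity) (by positivity)).1 h3
    have h5 : (2 : ℝ) ^ ⌈t⌉₊ ≤ (b : ℝ) ^ ⌈t⌉₊ :=
      pow_le_pow_left₀ (by norm_num) (by exact_mod_cast hb) _
    have h6 : B * X ≤ (1 + B) * (2 + X) := by nlinarith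
    linarith
  · have h1 : (⌈t⌉₊ : ℝ) < t + 1 := Nat.ceil_lt_add_one ht0
    have h2 : 1 ≤ l / Real.log 2 := by rw [le_div_iff₀ hl2]; linarith
    have h3 : Real.log (1 + B) / Real.log 2 * 1 ≤ Real.log (1 + B) / Real.log 2 * (l / Real.log 2) :=
      mul_le_mul_of_nonneg_left h2 (by positivity)
    have h4 : t = Real.log (1 + B) / Real.log 2 + l / Real.log 2 := by rw [ht, add_div]
    have h5 : ((Real.log (1 + B) / Real.log 2 + 2) / Real.log 2) * l =
        Real.log (1 + B) / Real.log 2 * (l / Real.log 2) + 2 * (l / Real.log 2) := by ring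
    rw [h5]
    linarith

section
variable {b : ℕ} {y : ℝ}

open Classical in
theorem near_y (hb : 2 ≤ b) (hy0 : 0 < y) (hy1 : y < 1) (halg : IsAlgebraic ℚ y)
    (hirr : Irrational y) (d : ℕ) (c : ℕ → ℤ)
    (hP : ∑ k ∈ range (d + 2 + 1), (c k : ℝ) * (1 + y) ^ k = 0) (hc : 0 < c (d + 2))
    (ε : ℝ) (hε : 0 < ε) (hε1 : ε ≤ 1) :
    ∃ C : ℝ, 0 < C ∧ ∃ n0 : ℕ, ∀ n : ℕ, n0 ≤ n → ∃ R : ℕ,
      (R : ℝ) ≤ C * Real.log (2 + (KK b y n : ℝ) ^ (d + 2) / n) ∧
      (((range n).filter (fun m => ¬ Near b y (d + 2) R m)).card : ℝ) ≤ ε * n := by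
  obtain ⟨C1, hC1, c2, hc2, hmain⟩ := main_L hb hy0 hy1 halg hirr d c hP hc (ε / 8)
    (by positivity) (by linarith)
  have hl2 : 0 < Real.log 2 := Real.log_pos (by norm_num)
  have hb2 : (2 : ℝ) ≤ b := by exact_mod_cast hb
  have hlb : 0 ≤ Real.log b := Real.log_nonneg (by linarith)
  set B : ℝ := 8 * (3 ^ (d + 2) + 1) / (c2 * ε) with hB
  have hB0 : 0 ≤ B := by positivity
  have hlB : 0 ≤ Real.log (1 + B) := Real.log_nonneg (by linarith)
  set C2 : ℝ := (Real.log (1 + B) / Real.log 2 + 2) / Real.log 2 with hC2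
  have hC20 : 0 < C2 := by positivity
  set C6 : ℝ := 1 + ((d : ℝ) + 2) * (Real.log b + 1) with hC6
  have hC60 : 0 < C6 := by positivity
  set κ : ℝ := ε / (8 * C1) with hκ
  have hκ0 : 0 < κ := by positivity
  set C5 : ℝ := 2 / Real.log 2 + (2 * (d : ℝ) + 2) with hC5
  have hC50 : 0 < C5 := by positivity
  set η : ℝ := min 1 (min κ (min (ε / (16 * C1)) (ε / (4 * (C2 * C6))))) with hη
  have hη0 : 0 < η := by
    refine lt_min one_pos (lt_min hκ0 (lt_min ?_ ?_)) <;> positivity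
  have hη1 : η ≤ 1 := min_le_left _ _
  have hηκ : η ≤ κ := (min_le_right _ _).trans (min_le_left _ _)
  have hηC1 : η ≤ ε / (16 * C1) :=
    (min_le_right _ _).trans ((min_le_right _ _).trans (min_le_left _ _))
  have hηC2 : η ≤ ε / (4 * (C2 * C6)) :=
    (min_le_right _ _).trans ((min_le_right _ _).trans (min_le_right _ _))
  obtain ⟨n1, hn1⟩ := Filter.eventually_atTop.1 (log_small (2 * d + 2) η hη0)
  refine ⟨C2 + (8 * C1 / ε + 2) * C5 + 1 / Real.log 2, by positivity, max n1 1, fun n hn => ?_⟩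
  have hn2 := hn1 n ((le_max_left _ _).trans hn)
  have hnN : 1 ≤ n := (le_max_right n1 1).trans hn
  have hnR : (1 : ℝ) ≤ n := by exact_mod_cast hnN
  have hn0 : (0 : ℝ) < n := by linarith
  set ℓ := Real.log ((n : ℝ) + 1) with hℓdef
  have hℓ : 0 ≤ ℓ := Real.log_nonneg (by linarith)
  -- smallness of the logarithm
  have hpow : (1 + ℓ) ^ (2 * d + 4) ≤ η ^ (2 * d + 4) * n := by
    have h1 := pow_le_pow_left₀ (by linarith : (0 : ℝ) ≤ 1 + ℓ) hn2 (2 * d + 4)
    rw [mul_pow] at h1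
    have h2 : ((n : ℝ) ^ ((1 : ℝ) / (((2 * d + 2 : ℕ) : ℝ) + 2))) ^ (2 * d + 4) = n := by
      rw [← Real.rpow_natCast, ← Real.rpow_mul (by linarith)]
      have : (1 : ℝ) / (((2 * d + 2 : ℕ) : ℝ) + 2) * ((2 * d + 4 : ℕ) : ℝ) = 1 := by
        have h3 : (((2 * d + 2 : ℕ) : ℝ) + 2) = ((2 * d + 4 : ℕ) : ℝ) := by push_cast; ring
        rw [h3, one_div, inv_mul_cancel₀]
        positivity
      rw [this, Real.rpow_one]
    rwa [h2] at h1
  have hsmall : 1 + ℓ ≤ η * n := by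
    have h1 : 1 + ℓ ≤ (1 + ℓ) ^ (2 * d + 4) := le_self_pow₀ (by linarith) (by omega)
    have h2 : η ^ (2 * d + 4) ≤ η := by
      calc η ^ (2 * d + 4) ≤ η ^ 1 := pow_le_pow_of_le_one hη0.le hη1 (by omega)
        _ = η := pow_one _
    have h3 : η ^ (2 * d + 4) * n ≤ η * n := mul_le_mul_of_nonneg_right h2 hn0.le
    linarith
  -- the parameters
  set Kn : ℝ := (KK b y n : ℝ) with hKn
  have hK1 : 1 ≤ Kn := by rw [hKn]; exact_mod_cast KK_pos hy0 hy1 n
  set X : ℝ := Kn ^ (d + 2) / n with hX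
  have hX0 : 0 < X := by positivity
  have hXn : Kn ^ (d + 2) = X * n := by rw [hX]; field_simp
  set l := Real.log (2 + X) with hl
  have hll : Real.log 2 ≤ l := Real.log_le_log (by norm_num) (by linarith)
  have hl0 : 0 < l := by linarith
  have hone : 1 ≤ l / Real.log 2 := by rw [le_div_iff₀ hl2]; linarith
  obtain ⟨M, hM1, hM2⟩ := exists_M B hB0 X hX0.le b hb
  rw [← hl, ← hC2] at hM2
  have hlC6 : l ≤ C6 * (1 + ℓ) := by
    have h1 : Kn ≤ b * (n + 1) := by
      have := KK_le (y := y) hb n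
      rw [hKn]; exact_mod_cast this
    have h2 : Kn ^ (d + 2) ≤ ((b : ℝ) * (n + 1)) ^ (d + 2) :=
      pow_le_pow_left₀ (by linarith) h1 _
    have h3 : X ≤ ((b : ℝ) * (n + 1)) ^ (d + 2) := by
      rw [hX]
      exact (div_le_self (by positivity) hnR).trans h2
    have h4 : (2 : ℝ) ≤ ((b : ℝ) * (n + 1)) ^ (d + 2) := by
      have h5 : (2 : ℝ) ≤ (b : ℝ) * (n + 1) := by nlinarith
      exact h5.trans (le_self_pow₀ (by linarith) (by omega))
    have h5 : 2 + X ≤ 2 * ((b : ℝ) * (n + 1)) ^ (d + 2) := by linarith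
    have h6 : l ≤ Real.log (2 * ((b : ℝ) * (n + 1)) ^ (d + 2)) :=
      Real.log_le_log (by linarith) h5
    rw [Real.log_mul (by norm_num) (by positivity), Real.log_pow,
      Real.log_mul (by positivity) (by positivity)] at h6
    have h7 : Real.log 2 ≤ 1 := by
      have := Real.log_two_lt_d9
      linarith
    push_cast at h6
    have h8 : C6 * (1 + ℓ) = 1 + ℓ + ((d : ℝ) + 2) * (Real.log b + ℓ) +
        ((d : ℝ) + 2) * (1 + Real.log b * ℓ) := by rw [hC6]; ring
    rw [h8]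
    have h9 : 0 ≤ ((d : ℝ) + 2) * (1 + Real.log b * ℓ) := by positivity
    linarith
  have hMs : (M : ℝ) ≤ ε / 4 * n := by
    have h1 : (M : ℝ) ≤ C2 * (C6 * (1 + ℓ)) :=
      hM2.trans (mul_le_mul_of_nonneg_left hlC6 hC20.le)
    have h2 : C2 * (C6 * (1 + ℓ)) ≤ C2 * C6 * (ε / (4 * (C2 * C6)) * n) := by
      rw [← mul_assoc]
      refine mul_le_mul_of_nonneg_left ?_ (by positivity)
      exact hsmall.trans (mul_le_mul_of_nonneg_right hηC2 hn0.le)
    have h3 : C2 * C6 * (ε / (4 * (C2 * C6)) * n) = ε / 4 * n := by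
      field_simp
    linarith
  have hlast : (3 ^ (d + 2) + 1) * Kn ^ (d + 2) / ((b : ℝ) ^ M * c2) ≤ ε / 8 * n := by
    have hbM : (0 : ℝ) < (b : ℝ) ^ M := by positivity
    rw [div_le_iff₀ (by positivity), hXn]
    have h1 : (3 ^ (d + 2) + 1) * (X * n) = (B * X) * (ε / 8 * n * c2) := by
      rw [hB]; field_simp
    rw [h1]
    have h2 : ε / 8 * n * ((b : ℝ) ^ M * c2) = (b : ℝ) ^ M * (ε / 8 * n * c2) := by ring
    rw [h2]
    exact mul_le_mul_of_nonneg_right hM1 (by positivity)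
  set Kd : ℝ := Kn ^ (d + 1) with hKd
  have hKd1 : 1 ≤ Kd := one_le_pow₀ hK1
  by_cases hcase : C1 * (1 + ℓ) * (Kd + 1) ≤ ε / 4 * n
  · -- blocks of length one
    refine ⟨max 1 M, ?_, ?_⟩
    · have h1 : (1 : ℝ) ≤ 1 / Real.log 2 * l := by
        rw [div_mul_eq_mul_div, one_mul]; exact hone
      have h2 : 0 ≤ (8 * C1 / ε + 2) * C5 * l := by positivity
      have h3 : 0 ≤ 1 / Real.log 2 * l := by positivity
      have h4 : 0 ≤ C2 * l := by positivity
      have h5 : (C2 + (8 * C1 / ε + 2) * C5 + 1 / Real.log 2) * l =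
        C2 * l + (8 * C1 / ε + 2) * C5 * l + 1 / Real.log 2 * l := by ring
      rw [h5]
      push_cast
      exact max_le (by linarith) (by linarith)
    · have h1 := hmain n 1 M le_rfl
      have h2 := card_blocks_le (b := b) (y := y) n 1 d
      have h3 : C1 * (1 + ℓ) * ((((range (n / 1 + 1)).filter (fun i => ∃ k, k ≤ n ∧ k / 1 = i ∧
            1 ≤ rr (xx b y) (d + 1) k)).card : ℝ) + 1) ≤ C1 * (1 + ℓ) * (Kd + 1) := by
        refine mul_le_mul_of_nonneg_left ?_ (by positivity)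
        linarith
      have h4 : 0 ≤ ε * n := by positivity
      linarith
  · -- long blocks
    push Not at hcase
    have h1 : κ * n ≤ (1 + ℓ) * Kd := by
      rw [hκ, div_mul_eq_mul_div, div_le_iff₀ (by positivity)]
      have h2 : C1 * (1 + ℓ) * (Kd + 1) ≤ C1 * (1 + ℓ) * (2 * Kd) :=
        mul_le_mul_of_nonneg_left (by linarith) (by positivity)
      linarith
    have h2 : κ ^ (d + 2) * n ≤ (1 + ℓ) ^ (d + 2) * X ^ (d + 1) := by
      have h3 := pow_le_pow_left₀ (by positivity : 0 ≤ κ * n) h1 (d + 2)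
      rw [mul_pow, mul_pow] at h3
      have h4 : Kd ^ (d + 2) = X ^ (d + 1) * (n : ℝ) ^ (d + 1) := by
        rw [hKd, ← pow_mul, mul_comm (d + 1) (d + 2), pow_mul, hXn, mul_pow]
      rw [h4] at h3
      have h5 : κ ^ (d + 2) * n * (n : ℝ) ^ (d + 1) ≤
          (1 + ℓ) ^ (d + 2) * X ^ (d + 1) * (n : ℝ) ^ (d + 1) := by
        calc κ ^ (d + 2) * n * (n : ℝ) ^ (d + 1) = κ ^ (d + 2) * (n : ℝ) ^ (d + 2) := by ring
          _ ≤ (1 + ℓ) ^ (d + 2) * (X ^ (d + 1) * (n : ℝ) ^ (d + 1)) := h3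
          _ = _ := by ring
      exact le_of_mul_le_mul_right h5 (by positivity)
    have h3 : (n : ℝ) ≤ X ^ (2 * d + 2) := by
      have h4 := pow_le_pow_left₀ (by positivity) h2 2
      have h5 : (κ ^ (d + 2) * n) ^ 2 = κ ^ (2 * d + 4) * n * n := by ring
      have h6 : ((1 + ℓ) ^ (d + 2) * X ^ (d + 1)) ^ 2 = (1 + ℓ) ^ (2 * d + 4) * X ^ (2 * d + 2) := by
        ring
      rw [h5, h6] at h4
      have h7 : (1 + ℓ) ^ (2 * d + 4) ≤ κ ^ (2 * d + 4) * n :=
        hpow.trans (mul_le_mul_of_nonneg_right (pow_le_pow_left₀ hη0.le hηκ _) hn0.le)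
      have h8 : κ ^ (2 * d + 4) * n * n ≤ κ ^ (2 * d + 4) * n * X ^ (2 * d + 2) :=
        h4.trans (mul_le_mul_of_nonneg_right h7 (by positivity))
      exact le_of_mul_le_mul_left h8 (by positivity)
    have h4 : 1 + ℓ ≤ C5 * l := by
      have h5 : Real.log n ≤ (2 * (d : ℝ) + 2) * l := by
        have h6 := Real.log_le_log hn0 h3
        rw [Real.log_pow] at h6
        push_cast at h6
        have h7 : Real.log X ≤ l := Real.log_le_log hX0 (by linarith)
        have h8 : (2 * (d : ℝ) + 2) * Real.log X ≤ (2 * (d : ℝ) + 2) * l :=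
          mul_le_mul_of_nonneg_left h7 (by positivity)
        linarith
      have h6 : ℓ ≤ Real.log n + 1 := by
        have h7 : (n : ℝ) + 1 ≤ n * Real.exp 1 := by
          have := Real.add_one_le_exp (1 : ℝ)
          nlinarith
        calc ℓ ≤ Real.log (n * Real.exp 1) := Real.log_le_log (by linarith) h7
          _ = Real.log n + 1 := by
            rw [Real.log_mul (by linarith) (Real.exp_pos 1).ne', Real.log_exp]
      have h7 : C5 * l = 2 * (l / Real.log 2) + (2 * (d : ℝ) + 2) * l := by rw [hC5]; ring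
      rw [h7]
      linarith
    set A : ℝ := 8 * C1 / ε + 1 with hA
    have hA0 : 0 < A := by positivity
    set L : ℕ := ⌈A * (1 + ℓ)⌉₊ with hL
    have hL1 : A * (1 + ℓ) ≤ L := Nat.le_ceil _
    have hL2 : (L : ℝ) < A * (1 + ℓ) + 1 := Nat.ceil_lt_add_one (by positivity)
    have hLpos : 1 ≤ L := by
      rw [hL, Nat.one_le_ceil_iff]
      positivity
    have hLR : (1 : ℝ) ≤ L := by exact_mod_cast hLpos
    refine ⟨max L M, ?_, ?_⟩
    · have h5 : (L : ℝ) ≤ (8 * C1 / ε + 2) * C5 * l := by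
        have h6 : (8 * C1 / ε + 2) * (1 + ℓ) = A * (1 + ℓ) + (1 + ℓ) := by rw [hA]; ring
        have h7 : (8 * C1 / ε + 2) * (1 + ℓ) ≤ (8 * C1 / ε + 2) * (C5 * l) :=
          mul_le_mul_of_nonneg_left h4 (by positivity)
        linarith
      have h3 : 0 ≤ 1 / Real.log 2 * l := by positivity
      have h6 : 0 ≤ C2 * l := by positivity
      have h8 : (C2 + (8 * C1 / ε + 2) * C5 + 1 / Real.log 2) * l =
        C2 * l + (8 * C1 / ε + 2) * C5 * l + 1 / Real.log 2 * l := by ring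
      rw [h8]
      push_cast
      have h9 : 0 ≤ (8 * C1 / ε + 2) * C5 * l := by positivity
      exact max_le (by linarith) (by linarith)
    · have h5 := hmain n L M hLpos
      have h6 : (((range (n / L + 1)).filter (fun i => ∃ k, k ≤ n ∧ k / L = i ∧
            1 ≤ rr (xx b y) (d + 1) k)).card : ℝ) ≤ n / L + 1 := by
        have h7 := card_filter_le (range (n / L + 1)) (fun i => ∃ k, k ≤ n ∧ k / L = i ∧
            1 ≤ rr (xx b y) (d + 1) k)
        rw [card_range] at h7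
        have h8 : ((n / L : ℕ) : ℝ) ≤ (n : ℝ) / L := Nat.cast_div_le
        have h9 : (((range (n / L + 1)).filter (fun i => ∃ k, k ≤ n ∧ k / L = i ∧
            1 ≤ rr (xx b y) (d + 1) k)).card : ℝ) ≤ ((n / L : ℕ) : ℝ) + 1 := by exact_mod_cast h7
        linarith
      have h7 : C1 * (1 + ℓ) * ((((range (n / L + 1)).filter (fun i => ∃ k, k ≤ n ∧ k / L = i ∧
            1 ≤ rr (xx b y) (d + 1) k)).card : ℝ) + 1) ≤ C1 * (1 + ℓ) * (n / L + 2) := by
        refine mul_le_mul_of_nonneg_left ?_ (by positivity)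
        linarith
      have h8 : C1 * (1 + ℓ) * (n / L) ≤ ε / 8 * n := by
        rw [mul_div_assoc', div_le_iff₀ (by linarith)]
        have h9 : 8 * C1 / ε * (1 + ℓ) ≤ L := by
          have h10 : A * (1 + ℓ) = 8 * C1 / ε * (1 + ℓ) + (1 + ℓ) := by rw [hA]; ring
          linarith
        have h10 : C1 * (1 + ℓ) = ε / 8 * (8 * C1 / ε * (1 + ℓ)) := by field_simp
        calc C1 * (1 + ℓ) * n = ε / 8 * (8 * C1 / ε * (1 + ℓ)) * n := by rw [← h10]
          _ ≤ ε / 8 * L * n := by gcongr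
          _ = _ := by ring
      have h9 : C1 * (1 + ℓ) * 2 ≤ ε / 8 * n := by
        have h10 : 1 + ℓ ≤ ε / (16 * C1) * n :=
          hsmall.trans (mul_le_mul_of_nonneg_right hηC1 hn0.le)
        have h11 : C1 * (ε / (16 * C1) * n) * 2 = ε / 8 * n := by field_simp; ring
        have h12 : C1 * (1 + ℓ) ≤ C1 * (ε / (16 * C1) * n) :=
          mul_le_mul_of_nonneg_left h10 hC1.le
        linarith
      have h10 : C1 * (1 + ℓ) * (n / L + 2) = C1 * (1 + ℓ) * (n / L) + C1 * (1 + ℓ) * 2 := by ring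
      have h11 : 0 ≤ ε * n := by positivity
      linarith

end

end Pool.Agent.U363.SP
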