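import Pool.Agent.U363.SP.BadE
import Pool.Agent.H820R3.DG.Asym

/-!
Almost all positions lie closely below an element of the support of the `(d + 2)`-fold
representation numbers.
-/

set_option autoImplicit false

open Finset

namespace Pool.Agent.U363.SP

open Pool.Agent.H394R2.Ones Pool.Agent.H820R3.DG Pool.Agent.R474.AG

section
variable {b : ℕ} {y : ℝ}

/-- `m` is at distance at most `R` below an element of the support -/
def Near (b : ℕ) (y : ℝ) (d R m : ℕ) : Prop := ∃ k, m ≤ k ∧ k ≤ m + R ∧ 1 ≤ rr (xx b y) d k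

open Classical in
/-- few positions with large tail are far from the support -/
lemma live_diff (hb : 2 ≤ b) (hy0 : 0 < y) (hy1 : y < 1) (d : ℕ) (c2 : ℝ) (hc2 : 0 < c2)
    (n M : ℕ) :
    (((range n).filter (fun m => c2 ≤ TT b y (d + 1) m ∧ ¬ Near b y (d + 1) M m)).card : ℝ) ≤
      M + (3 ^ (d + 1) + 1) * (KK b y n : ℝ) ^ (d + 1) / ((b : ℝ) ^ M * c2) := by
  have hb1 : (2 : ℝ) ≤ b := by exact_mod_cast hb
  have hb0 : (0 : ℝ) < b := by linarith
  set F : Finset ℕ := (range n).filter (fun m => m + M < n ∧ c2 ≤ TT b y (d + 1) m ∧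
    ∀ k, m ≤ k → k ≤ m + M → rr (xx b y) (d + 1) k = 0) with hF
  have hsub : (range n).filter (fun m => c2 ≤ TT b y (d + 1) m ∧ ¬ Near b y (d + 1) M m) ⊆
      Ico (n - M) n ∪ F := by
    intro m hm
    obtain ⟨hm1, hm2, hm4⟩ := mem_filter.1 hm
    have hm3 := mem_range.1 hm1
    rw [mem_union]
    by_cases h1 : m + M < n
    · right
      refine mem_filter.2 ⟨hm1, h1, hm2, fun k hk1 hk2 => ?_⟩
      by_contra hne
      exact hm4 ⟨k, hk1, hk2, Nat.one_le_iff_ne_zero.2 hne⟩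
    · exact Or.inl (mem_Ico.2 ⟨by omega, hm3⟩)
  have h1 := (card_le_card hsub).trans (card_union_le _ _)
  rw [Nat.card_Ico] at h1
  have h2 : ((range n).filter (fun m => c2 ≤ TT b y (d + 1) m ∧
      ¬ Near b y (d + 1) M m)).card ≤ M + F.card := by
    omega
  have h3 : (F.card : ℝ) * ((b : ℝ) ^ M * c2) ≤ ∑ N ∈ range n, TT b y (d + 1) N := by
    have h4 : ∑ m ∈ F, (b : ℝ) ^ M * c2 ≤ ∑ m ∈ F, TT b y (d + 1) (m + M) := by
      refine sum_le_sum fun m hm => ?_
      obtain ⟨-, h5, h6, h7⟩ := mem_filter.1 hm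
      rw [TT_zeros (b := b) (y := y) (d + 1) m M (fun k hk1 hk2 => h7 k (by omega) hk2)]
      exact mul_le_mul_of_nonneg_left h6 (by positivity)
    rw [sum_const, nsmul_eq_mul] at h4
    refine h4.trans ?_
    rw [← sum_image (s := F) (g := fun m => m + M) (f := fun N => TT b y (d + 1) N)
      (fun a _ c _ h => by simpa using h)]
    refine sum_le_sum_of_subset_of_nonneg ?_ fun N _ _ => TT_nonneg hb hy0 hy1 _ _
    intro N hN
    obtain ⟨m, hm, rfl⟩ := mem_image.1 hN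
    exact mem_range.2 (mem_filter.1 hm).2.1
  have h4 : ∑ N ∈ range n, TT b y (d + 1) N ≤
      (3 ^ (d + 1) + 1) * (KK b y n : ℝ) ^ (d + 1) := by
    have h5 := TT_sum hb hy0 hy1 (d + 1) n
    have h6 := TT_upper hb hy0 hy1 d n
    have h7 : (1 : ℝ) ≤ KK b y n := by exact_mod_cast KK_pos hy0 hy1 n
    have h8 : (KK b y n : ℝ) ^ d ≤ (KK b y n : ℝ) ^ (d + 1) :=
      pow_le_pow_right₀ h7 (Nat.le_succ d)
    have h9 : 0 ≤ ∑ N ∈ range n, TT b y (d + 1) N := sum_nonneg fun N _ => TT_nonneg hb hy0 hy1 _ _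
    have h10 : (0 : ℝ) < 3 ^ (d + 1) := by positivity
    nlinarith
  have hp : 0 < (b : ℝ) ^ M * c2 := by positivity
  have h5 : (F.card : ℝ) ≤ (3 ^ (d + 1) + 1) * (KK b y n : ℝ) ^ (d + 1) / ((b : ℝ) ^ M * c2) := by
    rw [le_div_iff₀ hp]
    exact h3.trans h4
  have h6 : (((range n).filter (fun m => c2 ≤ TT b y (d + 1) m ∧
      ¬ Near b y (d + 1) M m)).card : ℝ) ≤ M + F.card := by
    exact_mod_cast h2
  linarith

open Classical in
/-- the number of positions which are not near to the support, with blocks of length `L` -/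
lemma main_L (hb : 2 ≤ b) (hy0 : 0 < y) (hy1 : y < 1) (halg : IsAlgebraic ℚ y)
    (hirr : Irrational y) (d : ℕ) (c : ℕ → ℤ)
    (hP : ∑ k ∈ range (d + 2 + 1), (c k : ℝ) * (1 + y) ^ k = 0) (hc : 0 < c (d + 2))
    (δ : ℝ) (hδ0 : 0 < δ) (hδ1 : δ ≤ 1) :
    ∃ C1 : ℝ, 0 < C1 ∧ ∃ c2 : ℝ, 0 < c2 ∧ ∀ n L M : ℕ, 1 ≤ L →
      (((range n).filter (fun m => ¬ Near b y (d + 2) (max L M) m)).card : ℝ) ≤
        C1 * (1 + Real.log ((n : ℝ) + 1)) *
          ((((range (n / L + 1)).filter (fun i => ∃ k, k ≤ n ∧ k / L = i ∧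
            1 ≤ rr (xx b y) (d + 1) k)).card : ℝ) + 1) + δ * n + M +
          (3 ^ (d + 2) + 1) * (KK b y n : ℝ) ^ (d + 2) / ((b : ℝ) ^ M * c2) := by
  set c' : ℝ := ∑ k ∈ range (d + 2), |(c k : ℝ)| with hc'
  have hc'0 : 0 ≤ c' := sum_nonneg fun _ _ => abs_nonneg _
  have hcD : (0 : ℝ) < c (d + 2) := by exact_mod_cast hc
  set c2 : ℝ := 1 / (c (d + 2) + c') with hc2
  have hc20 : 0 < c2 := by positivity
  obtain ⟨C1, hC1, hbad⟩ := bad_cardE hb hy0 hy1 halg hirr d c' hc'0 δ hδ0 hδ1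
  refine ⟨C1 + 1, by linarith, c2, hc20, fun n L M hL => ?_⟩
  set J := (range (n / L + 1)).filter (fun i => ∃ k, k ≤ n ∧ k / L = i ∧
    1 ≤ rr (xx b y) (d + 1) k) with hJ
  set T : ℕ → Finset ℕ := fun i => (range (n + 1)).filter (fun k => k / L = i ∧
    1 ≤ rr (xx b y) (d + 1) k) with hT
  have hTne : ∀ i : J, (T i).Nonempty := by
    rintro ⟨i, hi⟩
    obtain ⟨-, k, hk1, hk2, hk3⟩ := mem_filter.1 hi
    exact ⟨k, mem_filter.2 ⟨mem_range.2 (by omega), hk2, hk3⟩⟩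
  have hbad' := hbad n J (fun i => (T i).min' (hTne i)) (fun i => (T i).max' (hTne i)) (by
    intro m hm hm1
    have hmT : m ∈ T (m / L) := mem_filter.2 ⟨mem_range.2 (by omega), rfl, hm1⟩
    have hmJ : m / L ∈ J := mem_filter.2
      ⟨mem_range.2 (Nat.lt_succ_of_le (Nat.div_le_div_right hm)), m, hm, rfl, hm1⟩
    exact ⟨⟨m / L, hmJ⟩, min'_le _ _ hmT, le_max' _ _ hmT⟩)
  rw [Fintype.card_coe] at hbad'
  have hlive := live_diff hb hy0 hy1 (d + 1) c2 hc20 n M
  have hsub : (range n).filter (fun m => ¬ Near b y (d + 2) (max L M) m) ⊆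
      ((range n).filter (fun m => (¬ ∃ f : J, (T f).min' (hTne f) ≤ m ∧ m ≤ (T f).max' (hTne f)) ∧
        TT b y (d + 2) m ≤ c' * TT b y (d + 1) m)) ∪
      ((range n).filter (fun m => c2 ≤ TT b y (d + 1 + 1) m ∧ ¬ Near b y (d + 1 + 1) M m)) := by
    intro m hm
    obtain ⟨hm1, hm2⟩ := mem_filter.1 hm
    have hnf : ¬ ∃ f : J, (T f).min' (hTne f) ≤ m ∧ m ≤ (T f).max' (hTne f) := by
      rintro ⟨f, hf1, hf2⟩
      apply hm2
      have h1 := mem_filter.1 ((T f).min'_mem (hTne f))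
      have h2 := mem_filter.1 ((T f).max'_mem (hTne f))
      refine ⟨(T f).max' (hTne f), hf2, ?_, rr_supp _ _ h2.2.2⟩
      have h3 : (T f).max' (hTne f) < (T f).min' (hTne f) + L := by
        have e1 := h1.2.1
        have e2 := h2.2.1
        have e3 := Nat.div_add_mod ((T f).max' (hTne f)) L
        have e4 := Nat.div_add_mod ((T f).min' (hTne f)) L
        have e5 := Nat.mod_lt ((T f).max' (hTne f)) (show 0 < L by omega)
        rw [e2] at e3
        rw [e1] at e4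
        omega
      have h4 := le_max_left L M
      omega
    by_cases h2 : TT b y (d + 2) m ≤ c' * TT b y (d + 1) m
    · exact mem_union_left _ (mem_filter.2 ⟨hm1, hnf, h2⟩)
    · refine mem_union_right _ (mem_filter.2
        ⟨hm1, good_live hb hy0 hy1 d c hP hc m h2, fun h => hm2 ?_⟩)
      obtain ⟨k, hk1, hk2, hk3⟩ := h
      have h4 := le_max_right L M
      exact ⟨k, hk1, by omega, hk3⟩
  have hcard := (card_le_card hsub).trans (card_union_le _ _)
  have hcardR : (((range n).filter (fun m => ¬ Near b y (d + 2) (max L M) m)).card : ℝ) ≤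
      (((range n).filter (fun m => (¬ ∃ f : J, (T f).min' (hTne f) ≤ m ∧
        m ≤ (T f).max' (hTne f)) ∧ TT b y (d + 2) m ≤ c' * TT b y (d + 1) m)).card : ℝ) +
      (((range n).filter (fun m => c2 ≤ TT b y (d + 1 + 1) m ∧
        ¬ Near b y (d + 1 + 1) M m)).card : ℝ) := by exact_mod_cast hcard
  have hn0 : (0 : ℝ) ≤ n := Nat.cast_nonneg _
  have hℓ : 0 ≤ Real.log ((n : ℝ) + 1) := Real.log_nonneg (by linarith)
  have h7 : 0 ≤ (1 + Real.log ((n : ℝ) + 1)) * ((J.card : ℝ) + 1) := by positivity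
  have h8 : C1 * (1 + Real.log ((n : ℝ) + 1)) * ((J.card : ℝ) + 1) ≤
      (C1 + 1) * (1 + Real.log ((n : ℝ) + 1)) * ((J.card : ℝ) + 1) := by nlinarith
  have e2 : d + 1 + 1 = d + 2 := rfl
  rw [e2] at hlive hcardR
  linarith

/-- the number of blocks which meet the support -/
lemma card_blocks_le (n L d : ℕ) [DecidablePred (fun i => ∃ k, k ≤ n ∧ k / L = i ∧
      1 ≤ rr (xx b y) (d + 1) k)] :
    (((range (n / L + 1)).filter (fun i => ∃ k, k ≤ n ∧ k / L = i ∧
      1 ≤ rr (xx b y) (d + 1) k)).card : ℝ) ≤ (KK b y n : ℝ) ^ (d + 1) := by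
  classical
  have h1 : (range (n / L + 1)).filter (fun i => ∃ k, k ≤ n ∧ k / L = i ∧
      1 ≤ rr (xx b y) (d + 1) k) ⊆
      ((range (n + 1)).filter (fun k => 1 ≤ rr (xx b y) (d + 1) k)).image (· / L) := by
    intro i hi
    obtain ⟨-, k, hk1, hk2, hk3⟩ := mem_filter.1 hi
    exact mem_image.2 ⟨k, mem_filter.2 ⟨mem_range.2 (by omega), hk3⟩, hk2⟩
  have h2 := (card_le_card h1).trans card_image_le
  have h3 : ((range (n + 1)).filter (fun k => 1 ≤ rr (xx b y) (d + 1) k)).card ≤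
      ∑ m ∈ range (n + 1), rr (xx b y) (d + 1) m := by
    rw [card_filter]
    refine sum_le_sum fun m _ => ?_
    split_ifs with h
    · exact h
    · exact Nat.zero_le _
  have h4 := h2.trans (h3.trans (rr_sum (b := b) (y := y) (d + 1) n))
  exact_mod_cast h4

end

end Pool.Agent.U363.SP
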