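import Pool.Agent.U363.SP.Main
import Pool.Agent.R474.AG.Fin

/-!
Sums of `D` places of digits of real algebraic numbers of degree `D`.
-/

set_option autoImplicit false

open Finset Polynomial

namespace Pool.Agent.U363.SP

open Pool.Agent.H394R2.Ones Pool.Agent.H820R3.DG Pool.Agent.R474.AG

/-- the number of `k` in `[1, n]` for which the `k`-th digit is not `e` -/
noncomputable def others (b : ℕ) (x : ℝ) (e : ℤ) (n : ℕ) : ℕ :=
  ((Icc 1 n).filter (fun k => digit b x k ≠ e)).card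

/-- `j` is a sum of `D` places (equal or not) of digits different from `e` -/
def IsSum (b : ℕ) (x : ℝ) (e : ℤ) (D j : ℕ) : Prop :=
  ∃ f : Fin D → ℕ, (∀ i, 1 ≤ f i ∧ digit b x (f i) ≠ e) ∧ ∑ i, f i = j

lemma rr_tuple (f : ℕ → ℕ) (d : ℕ) : ∀ m, 1 ≤ rr f d m →
    ∃ g : Fin d → ℕ, (∀ i, 1 ≤ f (g i)) ∧ ∑ i, g i = m := by
  induction d with
  | zero =>
    intro m h
    have h0 : m = 0 := by
      by_contra hne
      simp [rr, hne] at h
    subst h0
    exact ⟨Fin.elim0, fun i => i.elim0, by simp⟩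
  | succ d ih =>
    intro m h
    rw [rr_succ] at h
    obtain ⟨p, hp, hne⟩ := exists_ne_zero_of_sum_ne_zero (Nat.one_le_iff_ne_zero.1 h)
    rw [Finset.HasAntidiagonal.mem_antidiagonal] at hp
    have h1 : 1 ≤ f p.1 := by
      by_contra hcon
      exact hne (by rw [show f p.1 = 0 by omega, zero_mul])
    have h2 : 1 ≤ rr f d p.2 := by
      by_contra hcon
      exact hne (by rw [show rr f d p.2 = 0 by omega, mul_zero])
    obtain ⟨g, hg1, hg2⟩ := ih p.2 h2
    refine ⟨Fin.cons p.1 g, ?_, ?_⟩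
    · intro i
      refine Fin.cases ?_ (fun j => ?_) i
      · simpa using h1
      · simpa using hg1 j
    · rw [Fin.sum_univ_succ]
      simp only [Fin.cons_zero, Fin.cons_succ]
      omega

lemma log_compare (b D : ℕ) (hb : 2 ≤ b) (K KK n : ℝ) (hK : 0 ≤ K) (hKK0 : 0 ≤ KK)
    (hn : 1 ≤ n) (h : KK ≤ b * (K + 1)) :
    Real.log (2 + KK ^ D / n) ≤
      (Real.log (2 * (2 * b) ^ D) / Real.log 2 + 1) * Real.log (2 + K ^ D / n) := by
  have hl2 : 0 < Real.log 2 := Real.log_pos (by norm_num)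
  have hb2 : (2 : ℝ) ≤ b := by exact_mod_cast hb
  have hX : 0 ≤ K ^ D / n := by positivity
  set l := Real.log (2 + K ^ D / n) with hl
  have hll : Real.log 2 ≤ l := Real.log_le_log (by norm_num) (by linarith)
  have h1 : KK ^ D ≤ (2 * b) ^ D * (K ^ D + 1) := by
    have h2 : KK ≤ (2 * b) * max K 1 := by
      have h3 := le_max_left K 1
      have h4 := le_max_right K 1
      have h5 : (b : ℝ) * (K + 1) ≤ b * (2 * max K 1) :=
        mul_le_mul_of_nonneg_left (by linarith) (by linarith)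
      linarith
    have h3 : KK ^ D ≤ (2 * b) ^ D * (max K 1) ^ D := by
      rw [← mul_pow]; exact pow_le_pow_left₀ hKK0 h2 _
    have h4 : (max K 1) ^ D ≤ K ^ D + 1 := by
      rcases le_total K 1 with h5 | h5
      · rw [max_eq_right h5, one_pow]
        have : 0 ≤ K ^ D := by positivity
        linarith
      · rw [max_eq_left h5]; linarith
    exact h3.trans (mul_le_mul_of_nonneg_left h4 (by positivity))
  have hp : (1 : ℝ) ≤ (2 * b) ^ D := one_le_pow₀ (by linarith)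
  have h2 : KK ^ D / n ≤ (2 * b) ^ D * (K ^ D / n + 1) := by
    rw [div_le_iff₀ (by linarith)]
    have h3 : (2 * (b : ℝ)) ^ D * (K ^ D / n + 1) * n = (2 * b) ^ D * (K ^ D + n) := by
      field_simp
    rw [h3]
    refine h1.trans (mul_le_mul_of_nonneg_left (by linarith) (by positivity))
  have h3 : 2 + KK ^ D / n ≤ 2 * (2 * b) ^ D * (2 + K ^ D / n) := by nlinarith
  have h4 : Real.log (2 + KK ^ D / n) ≤ Real.log (2 * (2 * b) ^ D) + l := by
    rw [hl, ← Real.log_mul (by positivity) (by positivity)]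
    exact Real.log_le_log (by positivity) h3
  have h5 : 0 ≤ Real.log (2 * (2 * (b : ℝ)) ^ D) := Real.log_nonneg (by linarith)
  have h6 : 1 ≤ l / Real.log 2 := by rw [le_div_iff₀ hl2]; linarith
  have h7 : Real.log (2 * (2 * (b : ℝ)) ^ D) * 1 ≤
      Real.log (2 * (2 * (b : ℝ)) ^ D) * (l / Real.log 2) := mul_le_mul_of_nonneg_left h6 h5
  have h8 : (Real.log (2 * (2 * (b : ℝ)) ^ D) / Real.log 2 + 1) * l =
      Real.log (2 * (2 * (b : ℝ)) ^ D) * (l / Real.log 2) + l := by ring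
  rw [h8]
  linarith

open Classical in
/-- almost all positions are closely below a sum of `D` places of nonzero digits -/
theorem near_real {b : ℕ} (hb : 2 ≤ b) (P : ℤ[X]) (hD : 2 ≤ P.natDegree)
    (hlead : 0 < P.leadingCoeff) {ξ : ℝ} (hirr : Irrational ξ) (hP : aeval ξ P = 0)
    (ε : ℝ) (hε : 0 < ε) (hε1 : ε ≤ 1) :
    ∃ C : ℝ, 0 < C ∧ ∃ n0 : ℕ, ∀ n : ℕ, n0 ≤ n →
      (((Icc 1 n).filter (fun m => ¬ ∃ j : ℕ, m ≤ j ∧
        (j : ℝ) ≤ m + C * Real.log (2 + (others b ξ 0 n : ℝ) ^ P.natDegree / n) ∧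
        IsSum b ξ 0 P.natDegree j)).card : ℝ) ≤ ε * n := by
  obtain ⟨d, hd⟩ : ∃ d, P.natDegree = d + 2 := ⟨P.natDegree - 2, by omega⟩
  set y : ℝ := Int.fract ξ with hy
  have hyirr : Irrational y := by
    have : y = ξ - (⌊ξ⌋ : ℤ) := rfl
    rw [this]
    exact hirr.sub_intCast _
  have hy0 : 0 < y := lt_of_le_of_ne (Int.fract_nonneg ξ) (Ne.symm hyirr.ne_zero)
  have hy1 : y < 1 := Int.fract_lt_one ξ
  set r : ℤ := ⌊ξ⌋ - 1 with hr
  set Q : ℤ[X] := P.comp (X + C r) with hQ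
  have hQdeg : Q.natDegree = d + 2 := by
    rw [hQ, natDegree_comp, natDegree_X_add_C, mul_one, hd]
  have hQlead : Q.leadingCoeff = P.leadingCoeff := by
    rw [hQ, leadingCoeff_comp (by rw [natDegree_X_add_C]; norm_num), leadingCoeff_X_add_C,
      one_pow, mul_one]
  have hQ0 : aeval (1 + y) Q = 0 := by
    rw [hQ, aeval_comp]
    have : aeval (1 + y) (X + C r : ℤ[X]) = ξ := by
      have h1 : (⌊ξ⌋ : ℝ) + y = ξ := Int.floor_add_fract ξ
      have h2 : aeval (1 + y) (X + C r : ℤ[X]) = (1 + y) + (r : ℝ) := by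
        rw [map_add, aeval_X, aeval_C]; rfl
      rw [h2, hr]
      push_cast
      linarith
    rw [this]; exact hP
  have hQsum : ∑ k ∈ range (d + 2 + 1), (Q.coeff k : ℝ) * (1 + y) ^ k = 0 := by
    rw [aeval_eq_sum_range, hQdeg] at hQ0
    simpa [zsmul_eq_mul] using hQ0
  have hcoeff : Q.coeff (d + 2) = P.leadingCoeff := by
    rw [← hQlead]
    unfold leadingCoeff
    rw [hQdeg]
  have hξalg : IsAlgebraic ℚ ξ := by
    have h1 : IsAlgebraic ℤ ξ := ⟨P, by
      intro h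
      rw [h] at hlead
      simp at hlead, hP⟩
    exact (IsFractionRing.isAlgebraic_iff ℤ ℚ ℝ).mp h1
  have halg : IsAlgebraic ℚ y := by
    have h1 : y = ξ - algebraMap ℚ ℝ (⌊ξ⌋ : ℚ) := by
      have : y = ξ - (⌊ξ⌋ : ℤ) := rfl
      rw [this]; simp
    rw [h1]
    exact hξalg.sub (isAlgebraic_algebraMap _)
  obtain ⟨C0, hC0, n0, h⟩ := near_y hb hy0 hy1 halg hyirr d (fun k => Q.coeff k) hQsum (by
      show 0 < Q.coeff (d + 2)
      rw [hcoeff]; exact hlead) (ε / 2) (by positivity) (by linarith)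
  -- a place of a nonzero digit
  obtain ⟨L1, hgap⟩ := gap hb hy0 halg hyirr (1 / 2) (by norm_num) (by norm_num)
  obtain ⟨s0, hs01, -, hs02⟩ := hgap L1 le_rfl
  have hl2 : 0 < Real.log 2 := Real.log_pos (by norm_num)
  have hb2 : (2 : ℝ) ≤ b := by exact_mod_cast hb
  have hdig : ∀ k, 1 ≤ k → 1 ≤ xx b y k → digit b ξ k ≠ 0 := by
    intro k hk hx
    obtain ⟨k', rfl⟩ : ∃ k', k = k' + 1 := ⟨k - 1, by omega⟩
    rw [xx_succ] at hx
    rw [digit_fract hb, ← hy]
    omega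
  have hs0 : digit b ξ s0 ≠ 0 := by
    refine hdig s0 (by omega) ?_
    obtain ⟨k', rfl⟩ : ∃ k', s0 = k' + 1 := ⟨s0 - 1, by omega⟩
    rw [xx_succ]
    exact hs02
  set E : ℝ := Real.log (2 * (2 * b) ^ (d + 2)) / Real.log 2 + 1 with hE
  have hE0 : 0 < E := by
    have h1 : (1 : ℝ) ≤ (2 * b) ^ (d + 2) := one_le_pow₀ (by linarith)
    have h2 : 0 ≤ Real.log (2 * (2 * (b : ℝ)) ^ (d + 2)) := Real.log_nonneg (by linarith)
    positivity
  obtain ⟨n2, hn2⟩ := exists_nat_gt (2 / ε)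
  refine ⟨C0 * E + ((d + 2) * s0 : ℕ) / Real.log 2, by positivity, max (max n0 n2) 1,
    fun n hn => ?_⟩
  have hnn0 : n0 ≤ n := (le_max_left _ _).trans ((le_max_left _ _).trans hn)
  have hnn2 : n2 ≤ n := (le_max_right n0 _).trans ((le_max_left _ _).trans hn)
  have hn1 : 1 ≤ n := (le_max_right _ _).trans hn
  have hnR : (1 : ℝ) ≤ n := by exact_mod_cast hn1
  obtain ⟨R, hR1, hR2⟩ := h n hnn0
  rw [hd]
  set l := Real.log (2 + (others b ξ 0 n : ℝ) ^ (d + 2) / n) with hl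
  have hll : Real.log 2 ≤ l := Real.log_le_log (by norm_num) (by
    have : 0 ≤ (others b ξ 0 n : ℝ) ^ (d + 2) / n := by positivity
    linarith)
  have hKK : (KK b y n : ℝ) ≤ b * ((others b ξ 0 n : ℝ) + 1) := by
    have h1 : KK b y n ≤ b * ((range (n + 1)).filter (fun m => 1 ≤ xx b y m)).card := by
      unfold KK
      rw [card_filter, mul_sum]
      refine sum_le_sum fun i hi => ?_
      split_ifs with h
      · rw [mul_one]; exact xx_le hb i
      · omega
    have h2 : ((range (n + 1)).filter (fun m => 1 ≤ xx b y m)).card ≤ others b ξ 0 n + 1 := by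
      have h3 : (range (n + 1)).filter (fun m => 1 ≤ xx b y m) ⊆
          insert 0 ((Icc 1 n).filter (fun k => digit b ξ k ≠ 0)) := by
        intro k hk
        obtain ⟨hk1, hk2⟩ := mem_filter.1 hk
        have hk3 := mem_range.1 hk1
        rw [mem_insert]
        rcases Nat.eq_zero_or_pos k with h0 | h0
        · exact Or.inl h0
        · exact Or.inr (mem_filter.2 ⟨mem_Icc.2 ⟨h0, by omega⟩, hdig k h0 hk2⟩)
      exact (card_le_card h3).trans (card_insert_le _ _)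
    have h3 := h1.trans (Nat.mul_le_mul_left b h2)
    exact_mod_cast h3
  have hcomp := log_compare b (d + 2) hb (others b ξ 0 n) (KK b y n) n (Nat.cast_nonneg _)
    (Nat.cast_nonneg _) hnR hKK
  rw [← hl, ← hE] at hcomp
  have hR3 : (R : ℝ) ≤ C0 * E * l := by
    calc (R : ℝ) ≤ C0 * Real.log (2 + (KK b y n : ℝ) ^ (d + 2) / n) := hR1
      _ ≤ C0 * (E * l) := mul_le_mul_of_nonneg_left hcomp hC0.le
      _ = _ := by ring
  have hs3 : (((d + 2) * s0 : ℕ) : ℝ) ≤ ((d + 2) * s0 : ℕ) / Real.log 2 * l := by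
    rw [div_mul_eq_mul_div, le_div_iff₀ hl2]
    exact mul_le_mul_of_nonneg_left hll (Nat.cast_nonneg _)
  have hsub : (Icc 1 n).filter (fun m => ¬ ∃ j : ℕ, m ≤ j ∧
        (j : ℝ) ≤ m + (C0 * E + ((d + 2) * s0 : ℕ) / Real.log 2) * l ∧
        IsSum b ξ 0 (d + 2) j) ⊆
      insert n ((range n).filter (fun m => ¬ Near b y (d + 2) R m)) := by
    intro m hm
    obtain ⟨hm1, hm2⟩ := mem_filter.1 hm
    obtain ⟨hm3, hm4⟩ := mem_Icc.1 hm1
    rw [mem_insert]
    rcases Nat.eq_or_lt_of_le hm4 with h5 | h5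
    · exact Or.inl h5
    refine Or.inr (mem_filter.2 ⟨mem_range.2 h5, fun hnear => hm2 ?_⟩)
    obtain ⟨k, hk1, hk2, hk3⟩ := hnear
    obtain ⟨g, hg1, hg2⟩ := rr_tuple _ _ _ hk3
    set g' : Fin (d + 2) → ℕ := fun i => if g i = 0 then s0 else g i with hg'
    have h6 : ∑ i, g i ≤ ∑ i, g' i := sum_le_sum fun i _ => by
      simp only [hg']
      split_ifs with h
      · omega
      · exact le_rfl
    have h7 : ∑ i, g' i ≤ ∑ i, (g i + s0) := sum_le_sum fun i _ => by
      simp only [hg']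
      split_ifs with h
      · omega
      · omega
    rw [sum_add_distrib, sum_const, card_univ, Fintype.card_fin, smul_eq_mul, hg2] at h7
    rw [hg2] at h6
    refine ⟨∑ i, g' i, hk1.trans h6, ?_, g', fun i => ?_, rfl⟩
    · have h8 : ∑ i, g' i ≤ m + R + (d + 2) * s0 := by omega
      have h9 : ((∑ i, g' i : ℕ) : ℝ) ≤ m + R + ((d + 2) * s0 : ℕ) := by exact_mod_cast h8
      have h10 : (C0 * E + ((d + 2) * s0 : ℕ) / Real.log 2) * l =
          C0 * E * l + ((d + 2) * s0 : ℕ) / Real.log 2 * l := by ring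
      rw [h10]
      linarith
    · simp only [hg']
      split_ifs with h
      · exact ⟨by omega, hs0⟩
      · exact ⟨by omega, hdig _ (by omega) (hg1 i)⟩
  have hcard := (card_le_card hsub).trans (card_insert_le _ _)
  have hcardR : (((Icc 1 n).filter (fun m => ¬ ∃ j : ℕ, m ≤ j ∧
        (j : ℝ) ≤ m + (C0 * E + ((d + 2) * s0 : ℕ) / Real.log 2) * l ∧
        IsSum b ξ 0 (d + 2) j)).card : ℝ) ≤
      (((range n).filter (fun m => ¬ Near b y (d + 2) R m)).card : ℝ) + 1 := by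
    exact_mod_cast hcard
  have h1 : 1 ≤ ε / 2 * n := by
    have h2 : 2 / ε < n := lt_of_lt_of_le hn2 (by exact_mod_cast hnn2)
    rw [div_lt_iff₀ hε] at h2
    linarith
  linarith

lemma others_neg {b : ℕ} (hb : 2 ≤ b) {ξ : ℝ} (hirr : Irrational ξ) (n : ℕ) :
    others b (-ξ) 0 n = others b ξ (b - 1) n := by
  unfold others
  congr 1
  refine filter_congr fun k _ => ?_
  rw [digit_neg hb hirr]
  constructor
  · intro h h1
    exact h (by rw [h1]; ring)
  · intro h h1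
    exact h (by linarith)

lemma isSum_neg {b : ℕ} (hb : 2 ≤ b) {ξ : ℝ} (hirr : Irrational ξ) (D j : ℕ) :
    IsSum b (-ξ) 0 D j ↔ IsSum b ξ (b - 1) D j := by
  unfold IsSum
  have h : ∀ k, (digit b (-ξ) k ≠ 0 ↔ digit b ξ k ≠ b - 1) := by
    intro k
    rw [digit_neg hb hirr]
    constructor
    · intro h h1
      exact h (by rw [h1]; ring)
    · intro h h1
      exact h (by linarith)
  simp only [h]

open Classical in
/-- almost all positions are closely below a sum of `D` places, for the digits `0` and `b - 1` -/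
theorem near_alg {b : ℕ} (hb : 2 ≤ b) {ξ : ℝ} (halg : IsAlgebraic ℚ ξ) (hirr : Irrational ξ)
    (ε : ℝ) (hε : 0 < ε) (hε1 : ε ≤ 1) :
    ∃ C : ℝ, 0 < C ∧ ∃ n0 : ℕ, ∀ n : ℕ, n0 ≤ n → ∀ e : ℤ, (e = 0 ∨ e = b - 1) →
      (((Icc 1 n).filter (fun m => ¬ ∃ j : ℕ, m ≤ j ∧
        (j : ℝ) ≤ m + C * Real.log (2 + (others b ξ e n : ℝ) ^ (minpoly ℚ ξ).natDegree / n) ∧
        IsSum b ξ e (minpoly ℚ ξ).natDegree j)).card : ℝ) ≤ ε * n := by
  obtain ⟨P, hdeg, hP0, hP⟩ := exists_int_poly halg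
  have hD : 2 ≤ P.natDegree := by
    rw [hdeg]
    by_contra hcon
    have h1 := minpoly.natDegree_pos halg.isIntegral
    have h2 : (minpoly ℚ ξ).natDegree = 1 := by omega
    obtain ⟨q, hq⟩ := minpoly.natDegree_eq_one_iff.1 h2
    exact hirr ⟨q, hq⟩
  have hl0 : P.leadingCoeff ≠ 0 := leadingCoeff_ne_zero.mpr hP0
  have key : ∀ (η : ℝ), Irrational η → (∃ R : ℤ[X], R.natDegree = P.natDegree ∧ aeval η R = 0) →
      ∃ C : ℝ, 0 < C ∧ ∃ n0 : ℕ, ∀ n : ℕ, n0 ≤ n →
      (((Icc 1 n).filter (fun m => ¬ ∃ j : ℕ, m ≤ j ∧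
        (j : ℝ) ≤ m + C * Real.log (2 + (others b η 0 n : ℝ) ^ P.natDegree / n) ∧
        IsSum b η 0 P.natDegree j)).card : ℝ) ≤ ε * n := by
    intro η hη ⟨R, hR1, hR3⟩
    have hR0 : R.leadingCoeff ≠ 0 := by
      rw [leadingCoeff_ne_zero]
      rintro rfl
      rw [natDegree_zero] at hR1
      omega
    rcases lt_or_gt_of_ne hR0 with h | h
    · have h3 := near_real hb (-R) (by rw [natDegree_neg, hR1]; exact hD)
        (by rw [leadingCoeff_neg]; omega) hη (by rw [map_neg, hR3, neg_zero]) ε hε hε1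
      rwa [natDegree_neg, hR1] at h3
    · have h3 := near_real hb R (by rw [hR1]; exact hD) h hη hR3 ε hε hε1
      rwa [hR1] at h3
  obtain ⟨c1, hc1, n1, h1⟩ := key ξ hirr ⟨P, rfl, hP⟩
  obtain ⟨c2, hc2, n2, h2⟩ := key (-ξ) hirr.neg ⟨P.comp (-X), by
      rw [natDegree_comp, natDegree_neg, natDegree_X, mul_one], by
      rw [aeval_comp]; simpa using hP⟩
  refine ⟨max c1 c2, lt_max_of_lt_left hc1, max n1 n2, fun n hn e he => ?_⟩
  rw [← hdeg]
  have hlog : ∀ K : ℝ, 0 ≤ K → 0 ≤ Real.log (2 + K ^ P.natDegree / n) := fun K hK =>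
    Real.log_nonneg (by
      have : 0 ≤ K ^ P.natDegree / n := by positivity
      linarith)
  rcases he with rfl | rfl
  · refine le_trans (Nat.cast_le.2 (card_le_card (monotone_filter_right _ ?_)))
      (h1 n ((le_max_left _ _).trans hn))
    rintro m - hm ⟨j, hj1, hj2, hj3⟩
    refine hm ⟨j, hj1, hj2.trans ?_, hj3⟩
    have := mul_le_mul_of_nonneg_right (le_max_left c1 c2)
      (hlog (others b ξ 0 n) (Nat.cast_nonneg _))
    linarith
  · refine le_trans (Nat.cast_le.2 (card_le_card (monotone_filter_right _ ?_)))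
      (h2 n ((le_max_right _ _).trans hn))
    rintro m - hm ⟨j, hj1, hj2, hj3⟩
    rw [others_neg hb hirr] at hj2
    rw [isSum_neg hb hirr] at hj3
    refine hm ⟨j, hj1, hj2.trans ?_, hj3⟩
    have := mul_le_mul_of_nonneg_right (le_max_right c1 c2)
      (hlog (others b ξ (b - 1) n) (Nat.cast_nonneg _))
    linarith

end Pool.Agent.U363.SP
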